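import Pool.Agent.Helper49.GD.Run

/-!
# No zeros near `s = 0`

`s` complex, `0 < |s| ≤ 1 / (75 K)`, `K` the number of labels: the defects of a closed run with
`ζ = - s²`, `κ = s / (1 + s²)` vanish. Proof: the mean difference of the Wronskians with
`h = s^(i-k) + s^(k-i)`, summed over all centres `k`.
-/

set_option autoImplicit false

namespace Pool.Agent.Helper49.GD

open Finset Pool.Agent.Helper43.GD

/-- `s^(i-k) + s^(k-i)` -/
noncomputable def hk (s : ℂ) (k i : ℤ) : ℂ := s ^ (i - k) + s ^ (k - i)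

/-- `q^(i-k) + q^(k-i)` -/
noncomputable def Hk (q : ℝ) (k i : ℤ) : ℝ := q ^ (i - k) + q ^ (k - i)

theorem hk_rec {s : ℂ} (hs : s ≠ 0) (k i : ℤ) :
    hk s k (i + 1) + hk s k (i - 1) = (s + s⁻¹) * hk s k i := by
  unfold hk
  rw [show i + 1 - k = (i - k) + 1 by ring, show k - (i + 1) = (k - i) - 1 by ring,
    show i - 1 - k = (i - k) - 1 by ring, show k - (i - 1) = (k - i) + 1 by ring,
    zpow_add_one₀ hs, zpow_add_one₀ hs, zpow_sub_one₀ hs, zpow_sub_one₀ hs]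
  ring

theorem Hk_rec {q : ℝ} (hq : q ≠ 0) (k i : ℤ) :
    Hk q k (i + 1) + Hk q k (i - 1) = (q + q⁻¹) * Hk q k i := by
  unfold Hk
  rw [show i + 1 - k = (i - k) + 1 by ring, show k - (i + 1) = (k - i) - 1 by ring,
    show i - 1 - k = (i - k) - 1 by ring, show k - (i - 1) = (k - i) + 1 by ring,
    zpow_add_one₀ hq, zpow_add_one₀ hq, zpow_sub_one₀ hq, zpow_sub_one₀ hq]
  ring

theorem Hk_pos {q : ℝ} (hq : 0 < q) (k i : ℤ) : 0 < Hk q k i := by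
  unfold Hk
  positivity

theorem norm_hk_le (s : ℂ) (k i : ℤ) : ‖hk s k i‖ ≤ Hk ‖s‖ k i := by
  unfold hk Hk
  refine (norm_add_le _ _).trans ?_
  rw [norm_zpow, norm_zpow]

/-- `1 / H ≤ q ^ |i - k|` -/
theorem inv_Hk_le {q : ℝ} (hq : 0 < q) (k i : ℤ) : (Hk q k i)⁻¹ ≤ q ^ (i - k).natAbs := by
  have hp := Hk_pos hq k i
  rw [inv_le_comm₀ hp (by positivity)]
  unfold Hk
  rcases le_or_gt k i with h | h
  · have e : q ^ (k - i) = (q ^ (i - k).natAbs)⁻¹ := by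
      rw [show k - i = -((i - k).natAbs : ℤ) by omega, zpow_neg, zpow_natCast]
    rw [e]
    have : 0 < q ^ (i - k) := by positivity
    linarith
  · have e : q ^ (i - k) = (q ^ (i - k).natAbs)⁻¹ := by
      rw [show i - k = -((i - k).natAbs : ℤ) by omega, zpow_neg, zpow_natCast]
      congr 2
      omega
    rw [e]
    have : 0 < q ^ (k - i) := by positivity
    linarith

theorem Hk_self (q : ℝ) (k : ℤ) : Hk q k k = 2 := by
  unfold Hk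
  rw [sub_self, zpow_zero]
  norm_num

theorem hk_self (s : ℂ) (k : ℤ) : hk s k k = 2 := by
  unfold hk
  rw [sub_self, zpow_zero]
  norm_num

theorem Hk_succ (q : ℝ) (k : ℤ) : Hk q k (k + 1) = q + q⁻¹ := by
  unfold Hk
  rw [show k + 1 - k = 1 by ring, show k - (k + 1) = -1 by ring, zpow_one, zpow_neg_one]

theorem Hk_pred (q : ℝ) (k : ℤ) : Hk q k (k - 1) = q + q⁻¹ := by
  unfold Hk
  rw [show k - 1 - k = -1 by ring, show k - (k - 1) = 1 by ring, zpow_one, zpow_neg_one, add_comm]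

/-- symmetry -/
theorem Hk_symm (q : ℝ) (k i : ℤ) : Hk q k i = Hk q (-k) (-i) := by
  unfold Hk
  rw [show -i - -k = k - i by ring, show -k - -i = i - k by ring, add_comm]

theorem hk_symm (s : ℂ) (k i : ℤ) : hk s k i = hk s (-k) (-i) := by
  unfold hk
  rw [show -i - -k = k - i by ring, show -k - -i = i - k by ring, add_comm]

/-- for `i < k`: lower bound of `h i`, upper bound of `h (i + 1)` -/
theorem hk_low {s : ℂ} (h0 : s ≠ 0) (h1 : ‖s‖ < 1) {k i : ℤ} (h : i < k) :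
    0 < ‖s‖ ^ (i - k) ∧ ‖s‖ ^ (i - k) * (1 - ‖s‖ ^ 2) ≤ ‖hk s k i‖ ∧
    ‖s‖ ^ (i - k) ≤ Hk ‖s‖ k i ∧ Hk ‖s‖ k (i + 1) ≤ 2 * ‖s‖ * ‖s‖ ^ (i - k) := by
  have q0 : 0 < ‖s‖ := norm_pos_iff.2 h0
  set q := ‖s‖ with hq
  have y0 : 0 < q ^ (i - k) := by positivity
  have hk' : q ^ (k - i) ≤ q ^ 2 * q ^ (i - k) := by
    rw [show q ^ 2 = q ^ (2 : ℤ) by norm_cast, ← zpow_add₀ q0.ne']
    exact zpow_le_zpow_right_of_le_one₀ q0 h1.le (by omega)
  refine ⟨y0, ?_, ?_, ?_⟩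
  · unfold hk
    have e := norm_sub_norm_le (s ^ (i - k)) (-(s ^ (k - i)))
    rw [norm_neg, sub_neg_eq_add, norm_zpow, norm_zpow, ← hq] at e
    linarith
  · unfold Hk
    have : 0 < q ^ (k - i) := by positivity
    linarith
  · unfold Hk
    have e1 : q ^ (i + 1 - k) = q * q ^ (i - k) := by
      rw [show i + 1 - k = (i - k) + 1 by ring, zpow_add_one₀ q0.ne', mul_comm]
    have e2 : q ^ (k - (i + 1)) ≤ q ^ (i + 1 - k) :=
      zpow_le_zpow_right_of_le_one₀ q0 h1.le (by omega)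
    rw [e1] at e2 ⊢
    linarith

theorem hk_ne {s : ℂ} (h0 : s ≠ 0) (h1 : ‖s‖ < 1) (k i : ℤ) : hk s k i ≠ 0 := by
  have key : ∀ k i : ℤ, i < k → hk s k i ≠ 0 := by
    intro k i h
    obtain ⟨a1, a2, -, -⟩ := hk_low h0 h1 h
    have n0 := norm_nonneg s
    have : 0 < ‖hk s k i‖ := lt_of_lt_of_le (mul_pos a1 (by nlinarith)) a2
    exact norm_pos_iff.1 this
  rcases lt_trichotomy i k with h | h | h
  · exact key k i h
  · rw [h, hk_self]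
    norm_num
  · rw [hk_symm]
    exact key _ _ (by omega)

/-- the deviation of the coefficients, `i < k` -/
theorem dev_low {s : ℂ} (h0 : s ≠ 0) (h1 : ‖s‖ ≤ 1 / 4) {k i : ℤ} (h : i < k) :
    ‖s * hk s k (i + 1) / hk s k i‖ ≤ 3 * ‖s‖ ^ 2 ∧
    ‖s‖ / (1 + ‖s‖ ^ 2) * Hk ‖s‖ k (i + 1) / Hk ‖s‖ k i ≤ 2 * ‖s‖ ^ 2 := by
  have q0 : 0 < ‖s‖ := norm_pos_iff.2 h0
  obtain ⟨a1, a2, a3, a4⟩ := hk_low h0 (by linarith) h
  have hH := Hk_pos q0 k i
  have hn : 0 < ‖hk s k i‖ := norm_pos_iff.2 (hk_ne h0 (by linarith) k i)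
  constructor
  · rw [norm_div, norm_mul, div_le_iff₀ hn]
    have b1 : ‖hk s k (i + 1)‖ ≤ 2 * ‖s‖ * ‖s‖ ^ (i - k) := (norm_hk_le s k (i + 1)).trans a4
    have b2 : 3 * ‖s‖ ^ 2 * (‖s‖ ^ (i - k) * (1 - ‖s‖ ^ 2)) ≤ 3 * ‖s‖ ^ 2 * ‖hk s k i‖ :=
      mul_le_mul_of_nonneg_left a2 (by positivity)
    have b3 : ‖s‖ * ‖hk s k (i + 1)‖ ≤ ‖s‖ * (2 * ‖s‖ * ‖s‖ ^ (i - k)) :=
      mul_le_mul_of_nonneg_left b1 q0.le
    have b4 : ‖s‖ ^ 2 ≤ 1 / 16 := by nlinarith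
    have b5 : 0 < ‖s‖ ^ 2 * ‖s‖ ^ (i - k) := by positivity
    nlinarith
  · rw [div_le_iff₀ hH]
    have b1 : ‖s‖ / (1 + ‖s‖ ^ 2) ≤ ‖s‖ := by
      rw [div_le_iff₀ (by positivity)]
      nlinarith [sq_nonneg ‖s‖]
    have b2 : ‖s‖ / (1 + ‖s‖ ^ 2) * Hk ‖s‖ k (i + 1) ≤ ‖s‖ * (2 * ‖s‖ * ‖s‖ ^ (i - k)) :=
      mul_le_mul b1 a4 (Hk_pos q0 k (i + 1)).le q0.le
    have b3 : 2 * ‖s‖ ^ 2 * ‖s‖ ^ (i - k) ≤ 2 * ‖s‖ ^ 2 * Hk ‖s‖ k i :=
      mul_le_mul_of_nonneg_left a3 (by positivity)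
    nlinarith

/-- **The deviation of the coefficients.** -/
theorem dev {s : ℂ} (h0 : s ≠ 0) (h1 : ‖s‖ ≤ 1 / 4) (k i : ℤ) :
    ‖s * hk s k (i + 1) / hk s k i -
      ((‖s‖ / (1 + ‖s‖ ^ 2) * Hk ‖s‖ k (i + 1) / Hk ‖s‖ k i : ℝ) : ℂ)‖ ≤ 6 * ‖s‖ ^ 2 ∧
    ‖s * hk s k (i - 1) / hk s k i -
      ((‖s‖ / (1 + ‖s‖ ^ 2) * Hk ‖s‖ k (i - 1) / Hk ‖s‖ k i : ℝ) : ℂ)‖ ≤ 6 * ‖s‖ ^ 2 := by
  have q0 : 0 < ‖s‖ := norm_pos_iff.2 h0
  have hne := hk_ne h0 (by linarith) k i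
  have hH := (Hk_pos q0 k i).ne'
  -- the sums of the two coefficients
  have s1 : s * hk s k (i + 1) / hk s k i + s * hk s k (i - 1) / hk s k i = 1 + s ^ 2 := by
    rw [← add_div, ← mul_add, hk_rec h0]
    field_simp
    ring
  have s2 : ‖s‖ / (1 + ‖s‖ ^ 2) * Hk ‖s‖ k (i + 1) / Hk ‖s‖ k i +
      ‖s‖ / (1 + ‖s‖ ^ 2) * Hk ‖s‖ k (i - 1) / Hk ‖s‖ k i = 1 := by
    rw [← add_div, ← mul_add, Hk_rec q0.ne']
    have : (1 + ‖s‖ ^ 2) ≠ 0 := by positivity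
    field_simp
    ring
  have nn : ∀ j : ℤ, 0 ≤ ‖s‖ / (1 + ‖s‖ ^ 2) * Hk ‖s‖ k j / Hk ‖s‖ k i := fun j =>
    div_nonneg (mul_nonneg (by positivity) (Hk_pos q0 k j).le) (Hk_pos q0 k i).le
  -- one of the two is small
  have two : ∀ {x y : ℂ} {a b : ℝ}, x + y = 1 + s ^ 2 → a + b = 1 → 0 ≤ a → ‖x‖ ≤ 3 * ‖s‖ ^ 2 →
      a ≤ 2 * ‖s‖ ^ 2 → ‖x - a‖ ≤ 6 * ‖s‖ ^ 2 ∧ ‖y - b‖ ≤ 6 * ‖s‖ ^ 2 := by
    intro x y a b e1 e2 ha hx ha2
    have u1 : ‖x - a‖ ≤ 5 * ‖s‖ ^ 2 := by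
      refine (norm_sub_le _ _).trans ?_
      rw [Complex.norm_real, Real.norm_of_nonneg ha]
      linarith
    refine ⟨by nlinarith [sq_nonneg ‖s‖], ?_⟩
    have e3 : y - b = s ^ 2 - (x - a) := by
      have e4 : (b : ℂ) = 1 - a := by
        rw [show b = 1 - a by linarith]
        push_cast
        ring
      rw [e4]
      linear_combination e1
    rw [e3]
    refine (norm_sub_le _ _).trans ?_
    rw [norm_pow]
    linarith
  rcases lt_trichotomy i k with h | h | h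
  · obtain ⟨d1, d2⟩ := dev_low h0 h1 h
    exact two s1 s2 (nn _) d1 d2
  · subst h
    have e1 : hk s i (i + 1) = hk s i (i - 1) := by
      unfold hk
      rw [show i + 1 - i = i - (i - 1) by ring, show i - (i + 1) = i - 1 - i by ring, add_comm]
    have e2 : Hk ‖s‖ i (i + 1) = Hk ‖s‖ i (i - 1) := by rw [Hk_succ, Hk_pred]
    rw [e1] at s1 ⊢
    rw [e2] at s2 ⊢
    have e3 : s * hk s i (i - 1) / hk s i i = (1 + s ^ 2) / 2 := by linear_combination s1 / 2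
    have e4 : ‖s‖ / (1 + ‖s‖ ^ 2) * Hk ‖s‖ i (i - 1) / Hk ‖s‖ i i = 1 / 2 := by linarith
    rw [e3, e4]
    have e5 : (1 + s ^ 2) / 2 - ((1 / 2 : ℝ) : ℂ) = s ^ 2 / 2 := by
      push_cast
      ring
    rw [e5, norm_div, norm_pow]
    have : ‖(2 : ℂ)‖ = 2 := by norm_num
    rw [this]
    constructor <;> nlinarith [sq_nonneg ‖s‖]
  · have h' : -i < -k := by omega
    obtain ⟨d1, d2⟩ := dev_low h0 h1 h'
    rw [show -i + 1 = -(i - 1) by ring, ← hk_symm, ← hk_symm] at d1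
    rw [show -i + 1 = -(i - 1) by ring, ← Hk_symm, ← Hk_symm] at d2
    rw [add_comm] at s1 s2
    exact (two s1 s2 (nn _) d1 d2).symm

/-- `∑_k q ^ |j - k| ≤ 3` -/
theorem sum_pow_le {q : ℝ} (h0 : 0 ≤ q) (h1 : q ≤ 1 / 4) (M : ℕ) (j : ℤ) :
    ∑ k ∈ range M, q ^ (j - k).natAbs ≤ 3 := by
  have hmap : ∀ k ∈ range M, (j - (k : ℤ)).natAbs ∈ range (j.natAbs + M + 1) := by
    intro k hk
    rw [mem_range] at hk ⊢
    omega
  rw [← sum_fiberwise_of_maps_to hmap]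
  have h2 : ∀ n ∈ range (j.natAbs + M + 1),
      ∑ k ∈ (range M).filter (fun k : ℕ => (j - (k : ℤ)).natAbs = n), q ^ (j - (k : ℤ)).natAbs ≤
        2 * q ^ n := by
    intro n _
    have e : ∑ k ∈ (range M).filter (fun k : ℕ => (j - (k : ℤ)).natAbs = n), q ^ (j - (k : ℤ)).natAbs =
        ∑ k ∈ (range M).filter (fun k : ℕ => (j - (k : ℤ)).natAbs = n), q ^ n :=
      sum_congr rfl fun k hk => by rw [(mem_filter.1 hk).2]
    rw [e, sum_const, nsmul_eq_mul]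
    refine mul_le_mul_of_nonneg_right ?_ (by positivity)
    have hsub : (range M).filter (fun k : ℕ => (j - (k : ℤ)).natAbs = n) ⊆
        {(j - n).toNat, (j + n).toNat} := by
      intro k hk
      rw [mem_filter] at hk
      rw [mem_insert, mem_singleton]
      omega
    have := (card_le_card hsub).trans card_le_two
    exact_mod_cast this
  refine (sum_le_sum h2).trans ?_
  rw [← mul_sum]
  have h3 : ∑ n ∈ range (j.natAbs + M + 1), q ^ n ≤ (1 - q)⁻¹ := by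
    have hs := summable_geometric_of_lt_one h0 (by linarith)
    rw [← tsum_geometric_of_lt_one h0 (by linarith)]
    exact hs.sum_le_tsum _ fun i _ => by positivity
  have h4 : (1 - q)⁻¹ ≤ 3 / 2 := by
    rw [inv_le_comm₀ (by linarith) (by norm_num)]
    linarith
  linarith

/-- the weights of the labels for the centre `k` -/
noncomputable def pk {ι : Type} (q : ℝ) (lv : ι → ℤ) (k : ℤ) (i : ι) : ℝ :=
  (Hk q k (lv i + 1))⁻¹ * (Hk q k (lv i))⁻¹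

theorem pk_nonneg {ι : Type} {q : ℝ} (hq : 0 < q) (lv : ι → ℤ) (k : ℤ) (i : ι) : 0 ≤ pk q lv k i :=
  mul_nonneg (inv_nonneg.2 (Hk_pos hq _ _).le) (inv_nonneg.2 (Hk_pos hq _ _).le)

theorem pk_le {ι : Type} {q : ℝ} (hq : 0 < q) (h1 : q ≤ 1) (lv : ι → ℤ) (k : ℤ) (i : ι) :
    pk q lv k i ≤ q := by
  unfold pk
  have a1 := inv_Hk_le hq k (lv i + 1)
  have a2 := inv_Hk_le hq k (lv i)
  have b2 : 0 ≤ (Hk q k (lv i))⁻¹ := inv_nonneg.2 (Hk_pos hq _ _).le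
  refine (mul_le_mul a1 a2 b2 (by positivity)).trans ?_
  rw [← pow_add]
  calc q ^ ((lv i + 1 - k).natAbs + (lv i - k).natAbs) ≤ q ^ 1 :=
        pow_le_pow_of_le_one hq.le h1 (by omega)
    _ = q := pow_one q

theorem far_run {ι : Type} [Fintype ι] {s : ℂ} (hs : s ≠ 0)
    (hK : 75 * (Fintype.card ι : ℝ) * ‖s‖ ≤ 1) {m M : ℕ} {lv : ι → ℤ} {l r : ℕ → ι}
    {vl vr : ℕ → ι → ℂ} {σ : Equiv.Perm ι}
    (R : Run ι (-s ^ 2) (s / (1 + s ^ 2)) m lv l r vl vr (fun _ => 0) σ)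
    (hl : ∀ t < m, 0 ≤ lv (l t) ∧ lv (l t) < M) :
    ∀ t < m, vl t (l t) + vr t (r t) - vr t (l t) / (s / (1 + s ^ 2)) = 0 := by
  intro t0 ht0
  have q0 : 0 < ‖s‖ := norm_pos_iff.2 hs
  have K1 : (1 : ℝ) ≤ Fintype.card ι := by
    have : 0 < Fintype.card ι := Fintype.card_pos_iff.2 ⟨l t0⟩
    exact_mod_cast this
  have q1 : ‖s‖ ≤ 1 / 75 := by nlinarith
  have hs2 : (1 + s ^ 2 : ℂ) ≠ 0 := by
    intro h
    have h1 : s ^ 2 = -1 := by linear_combination h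
    have h2 : ‖s‖ ^ 2 = 1 := by rw [← norm_pow, h1, norm_neg, norm_one]
    nlinarith
  have hκ : s / (1 + s ^ 2) ≠ 0 := div_ne_zero hs hs2
  have hz : (1 - -s ^ 2) * (s / (1 + s ^ 2)) = s := by
    field_simp
    ring
  have hinv : ∀ k i : ℤ, hk s k (i + 1) + hk s k (i - 1) = hk s k i / (s / (1 + s ^ 2)) := by
    intro k i
    rw [hk_rec hs]
    field_simp
    ring
  set Q : ℝ := ‖s‖ / (1 + ‖s‖ ^ 2) with hQ
  have Q0 : 0 < Q := by positivity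
  set d : ℕ → ℂ := fun t => vl t (l t) + vr t (r t) - vr t (l t) / (s / (1 + s ^ 2)) with hd
  have hlr : ∀ t < m, lv (r t) = lv (l t) - 1 := fun t ht => by linarith [R.lev t ht]
  -- one centre
  have one : ∀ k : ℤ, ∑ t ∈ range m, pk ‖s‖ lv k (l t) * pk ‖s‖ lv k (r t) *
      (‖hk s k (lv (l t))‖ * ‖d t‖) ≤ (Fintype.card ι * ‖s‖) * ∑ t ∈ range m,
        (6 * ‖s‖ ^ 2 * (‖s‖ ^ (lv (l t) + 1 - k).natAbs + ‖s‖ ^ (lv (l t) - 1 - k).natAbs) * ‖d t‖) := by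
    intro k
    set G := GG (hk s k) lv vl vr with hG
    set a : ℕ → ℝ := fun t => Q * Hk ‖s‖ k (lv (l t) + 1) / Hk ‖s‖ k (lv (l t)) with ha
    set b : ℕ → ℝ := fun t => Q * Hk ‖s‖ k (lv (l t) - 1) / Hk ‖s‖ k (lv (l t)) with hb
    have hab : ∀ t, a t + b t = 1 := by
      intro t
      have := (Hk_pos q0 k (lv (l t))).ne'
      rw [ha, hb]
      simp only
      rw [← add_div, ← mul_add, Hk_rec q0.ne', hQ]
      have h3 : (1 + ‖s‖ ^ 2) ≠ 0 := by positivity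
      field_simp
      ring
    have a0 : ∀ t, 0 ≤ a t := fun t =>
      div_nonneg (mul_nonneg Q0.le (Hk_pos q0 k _).le) (Hk_pos q0 k _).le
    have b0 : ∀ t, 0 ≤ b t := fun t =>
      div_nonneg (mul_nonneg Q0.le (Hk_pos q0 k _).le) (Hk_pos q0 k _).le
    have step : ∀ t < m, IsStep (pk ‖s‖ lv k) (l t) (r t) (a t) (b t)
        ((s * hk s k (lv (l t) + 1) / hk s k (lv (l t)) - a t) * (G t (r t) - G t (l t)))
        ((s * hk s k (lv (l t) - 1) / hk s k (lv (l t)) - b t) * (G t (l t) - G t (r t)))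
        (G t) (G (t + 1)) := by
      intro t ht
      have hne := hk_ne hs (by linarith) k (lv (l t))
      refine ⟨R.ne t ht, a0 t, by linarith [hab t, b0 t], b0 t, by linarith [hab t, a0 t], ?_, ?_, ?_,
        fun j h1 h2 => R.out _ ht h1 h2⟩
      · unfold pk
        rw [hlr t ht, ha, hb]
        simp only
        have e1 := (Hk_pos q0 k (lv (l t))).ne'
        have e2 := (Hk_pos q0 k (lv (l t) + 1)).ne'
        have e3 := (Hk_pos q0 k (lv (l t) - 1)).ne'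
        rw [show lv (l t) - 1 + 1 = lv (l t) by ring]
        field_simp
      · rw [hG, R.left hκ (hinv k) ht hne, hz]
        ring
      · rw [hG, R.right hκ (hinv k) ht hne, hz]
        ring
    have hσ : ∀ i, pk ‖s‖ lv k (σ i) = pk ‖s‖ lv k i := fun i => by
      unfold pk
      rw [R.perm]
    have hg := gini (pk_nonneg q0 lv k) step σ hσ (fun i => R.close _ i)
    have hdiff : ∀ t < m, ‖G t (r t) - G t (l t)‖ = ‖hk s k (lv (l t))‖ * ‖d t‖ := by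
      intro t ht
      rw [hG, R.diff (hinv k) ht, norm_mul]
    have e1 : ∑ t ∈ range m, pk ‖s‖ lv k (l t) * pk ‖s‖ lv k (r t) *
        (‖hk s k (lv (l t))‖ * ‖d t‖) = ∑ t ∈ range m, (1 - |1 - a t - b t|) *
          (pk ‖s‖ lv k (l t) * pk ‖s‖ lv k (r t) * ‖G t (l t) - G t (r t)‖) := by
      refine sum_congr rfl fun t ht => ?_
      rw [norm_sub_rev (G t (l t)), hdiff t (mem_range.1 ht),
        show 1 - a t - b t = 0 by linarith [hab t], abs_zero]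
      ring
    rw [e1]
    refine hg.trans ?_
    have hp : ∑ i, pk ‖s‖ lv k i ≤ Fintype.card ι * ‖s‖ := by
      refine (sum_le_sum fun i _ => pk_le q0 (by linarith) lv k i).trans ?_
      rw [sum_const, card_univ, nsmul_eq_mul]
    refine mul_le_mul hp ?_ (sum_nonneg fun t _ => add_nonneg (mul_nonneg (pk_nonneg q0 _ _ _)
      (norm_nonneg _)) (mul_nonneg (pk_nonneg q0 _ _ _) (norm_nonneg _))) (by positivity)
    refine sum_le_sum fun t ht => ?_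
    have ht' := mem_range.1 ht
    obtain ⟨d1, d2⟩ := dev hs (by linarith) k (lv (l t))
    rw [norm_mul, norm_mul, norm_sub_rev (G t (l t)), hdiff t ht']
    have hh := norm_hk_le s k (lv (l t))
    have p1 : pk ‖s‖ lv k (l t) * ‖hk s k (lv (l t))‖ ≤ ‖s‖ ^ (lv (l t) + 1 - k).natAbs := by
      refine (mul_le_mul_of_nonneg_left hh (pk_nonneg q0 _ _ _)).trans ?_
      unfold pk
      rw [mul_assoc, inv_mul_cancel₀ (Hk_pos q0 k _).ne', mul_one]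
      exact inv_Hk_le q0 k _
    have p2 : pk ‖s‖ lv k (r t) * ‖hk s k (lv (l t))‖ ≤ ‖s‖ ^ (lv (l t) - 1 - k).natAbs := by
      refine (mul_le_mul_of_nonneg_left hh (pk_nonneg q0 _ _ _)).trans ?_
      unfold pk
      rw [hlr t ht', show lv (l t) - 1 + 1 = lv (l t) by ring, mul_comm, ← mul_assoc,
        mul_inv_cancel₀ (Hk_pos q0 k _).ne', one_mul]
      exact inv_Hk_le q0 k _
    have dn := norm_nonneg (d t)
    have w1 := pk_nonneg q0 lv k (l t)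
    have w2 := pk_nonneg q0 lv k (r t)
    have hn := norm_nonneg (hk s k (lv (l t)))
    have c1 : pk ‖s‖ lv k (l t) * (‖s * hk s k (lv (l t) + 1) / hk s k (lv (l t)) - (a t : ℂ)‖ *
        (‖hk s k (lv (l t))‖ * ‖d t‖)) ≤ 6 * ‖s‖ ^ 2 * ‖s‖ ^ (lv (l t) + 1 - k).natAbs * ‖d t‖ := by
      calc _ = ‖s * hk s k (lv (l t) + 1) / hk s k (lv (l t)) - (a t : ℂ)‖ *
            (pk ‖s‖ lv k (l t) * ‖hk s k (lv (l t))‖) * ‖d t‖ := by ring
        _ ≤ 6 * ‖s‖ ^ 2 * ‖s‖ ^ (lv (l t) + 1 - k).natAbs * ‖d t‖ :=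
          mul_le_mul_of_nonneg_right (mul_le_mul d1 p1 (mul_nonneg w1 hn) (by positivity)) dn
    have c2 : pk ‖s‖ lv k (r t) * (‖s * hk s k (lv (l t) - 1) / hk s k (lv (l t)) - (b t : ℂ)‖ *
        (‖hk s k (lv (l t))‖ * ‖d t‖)) ≤ 6 * ‖s‖ ^ 2 * ‖s‖ ^ (lv (l t) - 1 - k).natAbs * ‖d t‖ := by
      calc _ = ‖s * hk s k (lv (l t) - 1) / hk s k (lv (l t)) - (b t : ℂ)‖ *
            (pk ‖s‖ lv k (r t) * ‖hk s k (lv (l t))‖) * ‖d t‖ := by ring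
        _ ≤ 6 * ‖s‖ ^ 2 * ‖s‖ ^ (lv (l t) - 1 - k).natAbs * ‖d t‖ :=
          mul_le_mul_of_nonneg_right (mul_le_mul d2 p2 (mul_nonneg w2 hn) (by positivity)) dn
    linarith
  -- the sum over the centres
  have tot := sum_le_sum fun k (_ : k ∈ range M) => one (k : ℤ)
  rw [← mul_sum, sum_comm, sum_comm (s := range M)] at tot
  have low : ∑ t ∈ range m, Q ^ 2 / 2 * ‖d t‖ ≤ ∑ t ∈ range m, ∑ k ∈ range M,
      pk ‖s‖ lv k (l t) * pk ‖s‖ lv k (r t) * (‖hk s k (lv (l t))‖ * ‖d t‖) := by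
    refine sum_le_sum fun t ht => ?_
    have ht' := mem_range.1 ht
    obtain ⟨h1, h2⟩ := hl t ht'
    have hmem : (lv (l t)).toNat ∈ range M := by
      rw [mem_range]
      omega
    refine le_trans ?_ (single_le_sum (f := fun k : ℕ => pk ‖s‖ lv k (l t) * pk ‖s‖ lv k (r t) *
      (‖hk s k (lv (l t))‖ * ‖d t‖)) (fun k _ => mul_nonneg (mul_nonneg (pk_nonneg q0 _ _ _)
      (pk_nonneg q0 _ _ _)) (mul_nonneg (norm_nonneg _) (norm_nonneg _))) hmem)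
    rw [show (((lv (l t)).toNat : ℕ) : ℤ) = lv (l t) by omega]
    unfold pk
    rw [hlr t ht', show lv (l t) - 1 + 1 = lv (l t) by ring, Hk_self, hk_self, Hk_succ, Hk_pred]
    have : ‖(2 : ℂ)‖ = 2 := by norm_num
    rw [this, hQ]
    have h3 : (1 + ‖s‖ ^ 2) ≠ 0 := by positivity
    have h4 : ‖s‖ + ‖s‖⁻¹ ≠ 0 := by positivity
    have h5 : (‖s‖ + ‖s‖⁻¹)⁻¹ = ‖s‖ / (1 + ‖s‖ ^ 2) := by
      field_simp
      ring
    rw [h5]
    have dn := norm_nonneg (d t)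
    apply le_of_eq
    ring
  have upp : ∑ t ∈ range m, ∑ k ∈ range M, (6 * ‖s‖ ^ 2 * (‖s‖ ^ (lv (l t) + 1 - (k : ℤ)).natAbs +
      ‖s‖ ^ (lv (l t) - 1 - (k : ℤ)).natAbs) * ‖d t‖) ≤ ∑ t ∈ range m, 36 * ‖s‖ ^ 2 * ‖d t‖ := by
    refine sum_le_sum fun t _ => ?_
    rw [← sum_mul, ← mul_sum, sum_add_distrib]
    have a1 := sum_pow_le q0.le (by linarith : ‖s‖ ≤ 1 / 4) M (lv (l t) + 1)
    have a2 := sum_pow_le q0.le (by linarith : ‖s‖ ≤ 1 / 4) M (lv (l t) - 1)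
    refine mul_le_mul_of_nonneg_right ?_ (norm_nonneg _)
    nlinarith [sq_nonneg ‖s‖]
  rw [← mul_sum] at low upp
  have fin : Q ^ 2 / 2 * ∑ t ∈ range m, ‖d t‖ ≤
      (Fintype.card ι * ‖s‖) * (36 * ‖s‖ ^ 2 * ∑ t ∈ range m, ‖d t‖) :=
    low.trans (tot.trans (mul_le_mul_of_nonneg_left upp (by positivity)))
  have D0 : 0 ≤ ∑ t ∈ range m, ‖d t‖ := sum_nonneg fun t _ => norm_nonneg _
  have Q1 : 99 / 100 * ‖s‖ ≤ Q := by
    rw [hQ, le_div_iff₀ (by positivity)]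
    nlinarith
  have Q2 : 98 / 100 * ‖s‖ ^ 2 ≤ Q ^ 2 := by
    nlinarith
  have hD : ∑ t ∈ range m, ‖d t‖ = 0 := by
    by_contra hne
    have D1 : 0 < ∑ t ∈ range m, ‖d t‖ := lt_of_le_of_ne D0 (Ne.symm hne)
    have f1 : Q ^ 2 / 2 * (∑ t ∈ range m, ‖d t‖) ≤
        (Fintype.card ι * ‖s‖ * (36 * ‖s‖ ^ 2)) * ∑ t ∈ range m, ‖d t‖ := by linarith
    have f2 := le_of_mul_le_mul_right f1 D1
    have f3 : Fintype.card ι * ‖s‖ * (36 * ‖s‖ ^ 2) ≤ 1 / 75 * (36 * ‖s‖ ^ 2) :=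
      mul_le_mul_of_nonneg_right (by linarith) (by positivity)
    have f4 : 0 < ‖s‖ ^ 2 := by positivity
    linarith
  have := (sum_eq_zero_iff_of_nonneg fun t _ => norm_nonneg (d t)).1 hD t0 (mem_range.2 ht0)
  exact norm_eq_zero.1 this

end Pool.Agent.Helper49.GD
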