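import Pool.Agent.Helper49.GD.Far
import Pool.Agent.Helper2.GD.Glue

/-!
# The zeros of the Conway polynomial of a positive diagram are bounded

`G` a connected plane shadow with at most `s` Seifert circles: every zero `z` of `∇` satisfies
`|z| ≤ 76 s ^ 3`.
-/

set_option autoImplicit false

namespace Pool.Agent.Helper49.GD

open Polynomial Pool.Agent.Helper57.PD Pool.Agent.Helper85.Exp
  Pool.Agent.Helper60.EV2 Pool.Agent.Helper27.EV2 Pool.Agent.Helper2.PD Pool.Agent.Helper16.PD Pool.Agent.Helper8.GD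

/-- no defects: a face function which vanishes on both sides of an edge vanishes -/
theorem propagate {P : Type} {G : Sh P} (ho : ∀ i, G.op i ≠ i) (hc : Conn G) {κ : ℂ} (hκ' : κ ≠ 0)
    (c : Face G → ℂ)
    (each : ∀ p, G.lf p = true → c (Lf G (G.nxt.symm p)) = κ * (c (Lf G p) + c (Rf G (G.op p))) ∧
      c (Rf G p) = κ * (c (Lf G p) + c (Rf G (G.op p))))
    {e₀ : P} (h1 : c (Lf G e₀) = 0) (h2 : c (Rf G e₀) = 0) (f : Face G) : c f = 0 := by
  let Z : P → Prop := fun e => c (Lf G e) = 0 ∧ c (Rf G e) = 0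
  have four : ∀ p, G.lf p = true → (Z (G.nxt.symm p) ∨ Z (G.nxt.symm (G.op p)) ∨ Z p ∨ Z (G.op p)) →
      (Z (G.nxt.symm p) ∧ Z (G.nxt.symm (G.op p)) ∧ Z p ∧ Z (G.op p)) := by
    intro p hp h
    obtain ⟨a1, a2⟩ := each p hp
    have cE := corner_E hp (ho p)
    have cS := corner_S hp
    have cW := corner_W hp (ho p)
    have cN := corner_N hp
    have key : c (Lf G p) = 0 ∧ c (Rf G (G.op p)) = 0 := by
      rcases h with ⟨b1, b2⟩ | ⟨b1, b2⟩ | ⟨b1, b2⟩ | ⟨b1, b2⟩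
      · rw [cE] at b2
        rw [b1, b2, add_zero] at a1
        exact ⟨(mul_eq_zero.1 a1.symm).resolve_left hκ', b2⟩
      · rw [← cW] at b1
        rw [← cS] at b2
        rw [b1, b2, zero_add] at a1
        exact ⟨b1, (mul_eq_zero.1 a1.symm).resolve_left hκ'⟩
      · rw [b1, b2, zero_add] at a2
        exact ⟨b1, (mul_eq_zero.1 a2.symm).resolve_left hκ'⟩
      · rw [← cN] at b1
        rw [b1, b2, add_zero] at a2
        exact ⟨(mul_eq_zero.1 a2.symm).resolve_left hκ', b2⟩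
    obtain ⟨k1, k2⟩ := key
    rw [k1, k2, add_zero, mul_zero] at a1 a2
    refine ⟨⟨a1, by rw [cE]; exact k2⟩, ⟨by rw [← cW]; exact k1, by rw [← cS]; exact a1⟩, ⟨k1, a2⟩,
      ⟨by rw [← cN]; exact a2, k2⟩⟩
  have all : ∀ v, Z (G.nxt.symm v) := by
    have step : ∀ v, Z (G.nxt.symm v) → Z v ∧ Z (G.nxt.symm (G.op v)) := by
      intro v hv
      cases hl : G.lf v with
      | true =>
        have := four v hl (Or.inl hv)
        exact ⟨this.2.2.1, this.2.1⟩
      | false =>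
        have hl' : G.lf (G.op v) = true := by rw [G.lf_op v (ho v), hl]; rfl
        have := four (G.op v) hl' (Or.inr (Or.inl (by rw [G.op_op]; exact hv)))
        rw [G.op_op] at this
        exact ⟨this.2.2.2, this.1⟩
    have step' : ∀ v, Z v → Z (G.nxt.symm v) := by
      intro v hv
      cases hl : G.lf v with
      | true => exact (four v hl (Or.inr (Or.inr (Or.inl hv)))).1
      | false =>
        have hl' : G.lf (G.op v) = true := by rw [G.lf_op v (ho v), hl]; rfl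
        have := four (G.op v) hl' (Or.inr (Or.inr (Or.inr (by rw [G.op_op]; exact hv))))
        rw [G.op_op] at this
        exact this.2.1
    refine hc (fun v => Z (G.nxt.symm v)) ⟨G.nxt e₀, ?_⟩ ?_ ?_
    · show Z (G.nxt.symm (G.nxt e₀))
      rw [Equiv.symm_apply_apply]
      exact ⟨h1, h2⟩
    · intro v
      show Z (G.nxt.symm (G.nxt v)) ↔ _
      rw [Equiv.symm_apply_apply]
      exact ⟨step' v, fun h => (step v h).1⟩
    · intro v
      constructor
      · intro h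
        have := (step _ h).2
        rwa [G.op_op] at this
      · intro h
        exact (step _ h).2
  have all' : ∀ v, Z v := by
    intro v
    have := all (G.nxt v)
    rwa [Equiv.symm_apply_apply] at this
  exact face_ind (p := fun f => c f = 0) (fun i => (all' i).1) (fun i => (all' i).2) f

/-- the face function `c` as a closed run with at most `K` labels -/
def HasRun {P : Type} (G : Sh P) (K : ℕ) (ζ κ : ℂ) (c : Face G → ℂ) : Prop :=
  ∃ (ι : Type) (_ : Fintype ι) (m M : ℕ) (lv : ι → ℤ) (l r : ℕ → ι) (vl vr : ℕ → ι → ℂ)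
    (σ : Equiv.Perm ι), Fintype.card ι ≤ K ∧ Run ι ζ κ m lv l r vl vr (fun _ => 0) σ ∧
    (∀ t < m, 0 ≤ lv (l t) ∧ lv (l t) < M) ∧
    ∀ p, G.lf p = true → ∃ t < m, vl t (l t) = c (Lf G p) ∧ vr t (l t) = c (Lf G (G.nxt.symm p)) ∧
      vr t (r t) = c (Rf G (G.op p))

theorem far_face {P : Type} {G : Sh P} (ho : ∀ i, G.op i ≠ i) (hc : Conn G) {K : ℕ} {s : ℂ}
    (hs : s ≠ 0) (h1 : ‖s‖ < 1) (hK : 75 * (K : ℝ) * ‖s‖ ≤ 1) (c : Face G → ℂ)
    (hR : HasRun G K (-s ^ 2) (s / (1 + s ^ 2)) c)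
    (hrow : ∀ p, G.lf p = true → c (Rf G p) - (-s ^ 2) * c (Lf G (G.nxt.symm p)) -
      (1 - -s ^ 2) * (s / (1 + s ^ 2)) * (c (Lf G p) + c (Rf G (G.op p))) = 0)
    {e₀ : P} (c1 : c (Lf G e₀) = 0) (c2 : c (Rf G e₀) = 0) (f : Face G) : c f = 0 := by
  obtain ⟨ι, _, m, M, lv, l, r, vl, vr, σ, hcard, R, hl, hall⟩ := hR
  have hs2 := Pool.Agent.Helper2.GD.one_add_sq_ne h1
  have hκ : s / (1 + s ^ 2) ≠ 0 := div_ne_zero hs hs2
  refine propagate ho hc hκ c (fun p hp => ?_) c1 c2 f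
  obtain ⟨t, ht, e1, e2, e3⟩ := hall p hp
  have hd := far_run hs (by
    have h2 : (Fintype.card ι : ℝ) ≤ K := by exact_mod_cast hcard
    have h3 := norm_nonneg s
    nlinarith) R hl t ht
  rw [e1, e2, e3, sub_eq_zero, eq_div_iff hκ] at hd
  refine ⟨by rw [← hd]; ring, ?_⟩
  have h6 := hrow p hp
  linear_combination h6 - (-s ^ 2) * hd

/-- a small solution of `s⁻¹ - s = z` -/
theorem small_root {z : ℂ} {X : ℝ} (hX : 1 ≤ X) (hz : X + 1 < ‖z‖) :
    ∃ s : ℂ, s ≠ 0 ∧ ‖s‖ < 1 ∧ X * ‖s‖ ≤ 1 ∧ s⁻¹ - s = z := by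
  obtain ⟨s, hs⟩ := IsAlgClosed.exists_pow_nat_eq (z ^ 2 + 4) (n := 2) (by norm_num)
  -- the two roots of `s² + z s - 1 = 0`, the product is `-1`
  have main : ∀ w : ℂ, w ^ 2 + z * w - 1 = 0 → ‖w‖ ≤ 1 →
      ∃ s : ℂ, s ≠ 0 ∧ ‖s‖ < 1 ∧ X * ‖s‖ ≤ 1 ∧ s⁻¹ - s = z := by
    intro w hw h1
    have w0 : w ≠ 0 := by
      rintro rfl
      norm_num at hw
    have e : w⁻¹ - w = z := by
      field_simp
      linear_combination -hw
    have wp : 0 < ‖w‖ := norm_pos_iff.2 w0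
    have h2 : ‖z‖ ≤ ‖w‖⁻¹ + ‖w‖ := by
      rw [← e, ← norm_inv]
      exact norm_sub_le _ _
    have h3 : X < ‖w‖⁻¹ := by linarith
    have h4 : X * ‖w‖ < 1 := by
      have := mul_lt_mul_of_pos_right h3 wp
      rwa [inv_mul_cancel₀ wp.ne'] at this
    exact ⟨w, w0, by nlinarith, h4.le, e⟩
  have r1 : ((s - z) / 2) ^ 2 + z * ((s - z) / 2) - 1 = 0 := by linear_combination hs / 4
  have r2 : ((-s - z) / 2) ^ 2 + z * ((-s - z) / 2) - 1 = 0 := by linear_combination hs / 4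
  have hp : ((s - z) / 2) * ((-s - z) / 2) = -1 := by linear_combination (-1 / 4) * hs
  rcases le_or_gt ‖(s - z) / 2‖ 1 with h | h
  · exact main _ r1 h
  · refine main _ r2 ?_
    have h5 : ‖(s - z) / 2‖ * ‖(-s - z) / 2‖ = 1 := by
      rw [← norm_mul, hp, norm_neg, norm_one]
    have := norm_nonneg ((-s - z) / 2)
    nlinarith

/-- **The far bound.** -/
theorem far_of_run {s K : ℕ} (hK : 1 ≤ K)
    (hR : ∀ (P : Type) [Fintype P] (G : Sh P), Good s G → ∀ (ζ κ : ℂ) (c : Face G → ℂ),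
      (∀ p, G.lf p = true → c (Rf G p) - ζ * c (Lf G (G.nxt.symm p)) -
        (1 - ζ) * κ * (c (Lf G p) + c (Rf G (G.op p))) = 0) → HasRun G K ζ κ c) :
    Pool.Agent.Helper2.GD.FarB s ((76 * K : ℝ) ^ 2) := by
  intro P _ G h hne nab hn z hz
  classical
  obtain ⟨b⟩ := hne
  obtain ⟨α, nab', e, hn', -, -, hform, hA⟩ := one_shadow h b
  have : Nonempty P := ⟨b⟩
  have hu : nab = nab' := Cs.unique hn hn'
  by_contra hlt
  have K1 : (1 : ℝ) ≤ K := by exact_mod_cast hK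
  have h76 : 76 * (K : ℝ) < ‖z‖ := by
    by_contra h'
    exact hlt (pow_le_pow_left₀ (norm_nonneg z) (not_lt.1 h') 2)
  obtain ⟨w, w0, w1, w2, w3⟩ := small_root (X := 75 * K) (by linarith) (z := z) (by linarith)
  rw [← w3, hu] at hz
  refine nab_ne_of_Fdet h b hform hA w0 (Pool.Agent.Helper2.GD.one_add_sq_ne w1) ?_ hz
  refine Fdet_ne h b e _ _ fun c c1 c2 hr => ?_
  exact far_face h.ho h.hc w0 w1 w2 c (hR P G h _ _ c hr) hr c1 c2

end Pool.Agent.Helper49.GD
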