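import Pool.Agent.Helper43.GD.Gini

/-!
# Closed runs: the common form of the equations on the faces along a time order of the crossings

`ι`: the labels of the edges alive at a time; `lv i` is the index of the face right of the label `i`, and
`lv i + 1` the index of the face left of it; `vl t i`, `vr t i` are the values of the faces left and right of
the label `i` before the crossing `t`. The crossing `t` has the left strand `l t` and the right strand
`r t`; its faces are `W = vl (l t)`, `S = vr (l t) = vl (r t)`, `E = vr (r t)`, and `N`.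
-/

set_option autoImplicit false

namespace Pool.Agent.Helper49.GD

open Finset

/-- a closed run with the equations `N = ζ S + (1 - ζ) κ (W + E) + e_t` -/
structure Run (ι : Type) (ζ κ : ℂ) (m : ℕ) (lv : ι → ℤ) (l r : ℕ → ι) (vl vr : ℕ → ι → ℂ)
    (e : ℕ → ℂ) (σ : Equiv.Perm ι) : Prop where
  ne : ∀ t < m, l t ≠ r t
  lev : ∀ t < m, lv (l t) = lv (r t) + 1
  south : ∀ t < m, vr t (l t) = vl t (r t)
  north : ∀ t < m, vr (t + 1) (l t) = vl (t + 1) (r t)
  west : ∀ t < m, vl (t + 1) (l t) = vl t (l t)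
  east : ∀ t < m, vr (t + 1) (r t) = vr t (r t)
  outl : ∀ t < m, ∀ k, k ≠ l t → k ≠ r t → vl (t + 1) k = vl t k
  outr : ∀ t < m, ∀ k, k ≠ l t → k ≠ r t → vr (t + 1) k = vr t k
  eqn : ∀ t < m, vr (t + 1) (l t) =
    ζ * vr t (l t) + (1 - ζ) * κ * (vl t (l t) + vr t (r t)) + e t
  perm : ∀ i, lv (σ i) = lv i
  closel : ∀ i, vl m i = vl 0 (σ i)
  closer : ∀ i, vr m i = vr 0 (σ i)

/-- the Wronskian with a function `h` of the index -/
def Wr (h : ℤ → ℂ) (lv : ℤ) (a b : ℂ) : ℂ := h (lv + 1) * b - h lv * a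

variable {ι : Type} {ζ κ : ℂ} {m : ℕ} {lv : ι → ℤ} {l r : ℕ → ι} {vl vr : ℕ → ι → ℂ}
  {e : ℕ → ℂ} {σ : Equiv.Perm ι}

/-- `G`: the Wronskians of the labels -/
def GG (h : ℤ → ℂ) (lv : ι → ℤ) (vl vr : ℕ → ι → ℂ) (t : ℕ) (i : ι) : ℂ :=
  Wr h (lv i) (vl t i) (vr t i)

/-- **The exact Wronskian step**, the left strand. -/
theorem Run.left (R : Run ι ζ κ m lv l r vl vr e σ) (hκ : κ ≠ 0) {h : ℤ → ℂ}
    (hh : ∀ i, h (i + 1) + h (i - 1) = h i / κ) {t : ℕ} (ht : t < m) (hi : h (lv (l t)) ≠ 0) :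
    GG h lv vl vr (t + 1) (l t) =
      (1 - (1 - ζ) * κ * h (lv (l t) + 1) / h (lv (l t))) * GG h lv vl vr t (l t) +
      (1 - ζ) * κ * h (lv (l t) + 1) / h (lv (l t)) * GG h lv vl vr t (r t) +
      h (lv (l t) + 1) * e t := by
  unfold GG Wr
  have e1 : lv (r t) + 1 = lv (l t) := (R.lev t ht).symm
  have e2 : lv (r t) = lv (l t) - 1 := by linarith [R.lev t ht]
  rw [R.west t ht, R.eqn t ht, e1, e2, ← R.south t ht]
  have h3 := hh (lv (l t))
  rw [eq_div_iff hκ] at h3
  field_simp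
  linear_combination ((1 - ζ) * vr t (l t) * h (lv (l t) + 1)) * h3

/-- **The exact Wronskian step**, the right strand. -/
theorem Run.right (R : Run ι ζ κ m lv l r vl vr e σ) (hκ : κ ≠ 0) {h : ℤ → ℂ}
    (hh : ∀ i, h (i + 1) + h (i - 1) = h i / κ) {t : ℕ} (ht : t < m) (hi : h (lv (l t)) ≠ 0) :
    GG h lv vl vr (t + 1) (r t) =
      (1 - ζ) * κ * h (lv (l t) - 1) / h (lv (l t)) * GG h lv vl vr t (l t) +
      (1 - (1 - ζ) * κ * h (lv (l t) - 1) / h (lv (l t))) * GG h lv vl vr t (r t) -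
      h (lv (l t) - 1) * e t := by
  unfold GG Wr
  have e1 : lv (r t) + 1 = lv (l t) := (R.lev t ht).symm
  have e2 : lv (r t) = lv (l t) - 1 := by linarith [R.lev t ht]
  rw [R.east t ht, ← R.north t ht, R.eqn t ht, e1, e2, ← R.south t ht]
  have h3 := hh (lv (l t))
  rw [eq_div_iff hκ] at h3
  field_simp
  linear_combination (-(1 - ζ) * vr t (l t) * h (lv (l t) - 1)) * h3

/-- the difference of the two Wronskians at a crossing is `h` times the defect -/
theorem Run.diff (R : Run ι ζ κ m lv l r vl vr e σ) {h : ℤ → ℂ}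
    (hh : ∀ i, h (i + 1) + h (i - 1) = h i / κ) {t : ℕ} (ht : t < m) :
    GG h lv vl vr t (r t) - GG h lv vl vr t (l t) =
      h (lv (l t)) * (vl t (l t) + vr t (r t) - vr t (l t) / κ) := by
  unfold GG Wr
  have e1 : lv (r t) + 1 = lv (l t) := (R.lev t ht).symm
  have e2 : lv (r t) = lv (l t) - 1 := by linarith [R.lev t ht]
  rw [e1, e2, ← R.south t ht]
  have h3 := hh (lv (l t))
  linear_combination (-vr t (l t)) * h3

theorem Run.out (R : Run ι ζ κ m lv l r vl vr e σ) (h : ℤ → ℂ) {t : ℕ} (ht : t < m) {k : ι}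
    (h1 : k ≠ l t) (h2 : k ≠ r t) : GG h lv vl vr (t + 1) k = GG h lv vl vr t k := by
  unfold GG
  rw [R.outl t ht k h1 h2, R.outr t ht k h1 h2]

theorem Run.close (R : Run ι ζ κ m lv l r vl vr e σ) (h : ℤ → ℂ) (i : ι) :
    GG h lv vl vr m i = GG h lv vl vr 0 (σ i) := by
  unfold GG
  rw [R.perm, R.closel, R.closer]

end Pool.Agent.Helper49.GD
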