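import Mathlib

/-!
# The second coefficient from the decay on a circle

If all roots of a real polynomial are bounded by `R` and the polynomial is much smaller at `-r` than
at `r`, `r ≥ 2 R`, then the second coefficient is large.
-/

set_option autoImplicit false

namespace Pool.Agent.Helper49.GD

open Polynomial

/-- one factor -/
theorem factor_log {u : ℂ} (hu : ‖u‖ ≤ 1 / 2) :
    2 * u.re - 4 / 3 * ‖u‖ ^ 3 ≤ Real.log ‖1 + u‖ - Real.log ‖1 - u‖ := by
  have h1 := Complex.norm_log_sub_logTaylor_le 2 (z := u) (by linarith)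
  have h2 := Complex.norm_log_sub_logTaylor_le 2 (z := -u) (by rw [norm_neg]; linarith)
  have e1 : Complex.logTaylor 3 u = u - u ^ 2 / 2 := by
    rw [Complex.logTaylor_succ, Complex.logTaylor_succ, Complex.logTaylor_succ, Complex.logTaylor_zero]
    simp
    ring
  have e2 : Complex.logTaylor 3 (-u) = -u - u ^ 2 / 2 := by
    rw [Complex.logTaylor_succ, Complex.logTaylor_succ, Complex.logTaylor_succ, Complex.logTaylor_zero]
    simp
    ring
  norm_num at h1 h2
  rw [e1] at h1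
  rw [e2] at h2
  have n0 := norm_nonneg u
  have hinv : (1 - ‖u‖)⁻¹ ≤ 2 := by
    rw [inv_le_comm₀ (by linarith) (by norm_num)]
    linarith
  have b : ‖u‖ ^ 3 * (1 - ‖u‖)⁻¹ / 3 ≤ 2 / 3 * ‖u‖ ^ 3 := by
    have : ‖u‖ ^ 3 * (1 - ‖u‖)⁻¹ ≤ ‖u‖ ^ 3 * 2 := mul_le_mul_of_nonneg_left hinv (by positivity)
    linarith
  have g1 : |(Complex.log (1 + u) - (u - u ^ 2 / 2)).re| ≤ 2 / 3 * ‖u‖ ^ 3 :=
    (Complex.abs_re_le_norm _).trans (h1.trans b)
  have g2 : |(Complex.log (1 + -u) - (-u - u ^ 2 / 2)).re| ≤ 2 / 3 * ‖u‖ ^ 3 :=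
    (Complex.abs_re_le_norm _).trans (h2.trans b)
  rw [abs_le] at g1 g2
  rw [show (1 : ℂ) - u = 1 + -u by ring, ← Complex.log_re, ← Complex.log_re]
  simp only [Complex.sub_re, Complex.neg_re] at g1 g2
  linarith [g1.1, g2.2]

theorem sum_log {R r : ℝ} (hR : 0 < R) (hr : 2 * R ≤ r) : ∀ s : Multiset ℂ, (∀ z ∈ s, ‖z‖ ≤ R) →
    0 < (s.map fun z => ‖((-r : ℝ) : ℂ) - z‖).prod ∧ 0 < (s.map fun z => ‖(r : ℂ) - z‖).prod ∧
    2 * s.sum.re / r - 4 / 3 * (R / r) ^ 3 * Multiset.card s ≤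
      Real.log (s.map fun z => ‖((-r : ℝ) : ℂ) - z‖).prod -
        Real.log (s.map fun z => ‖(r : ℂ) - z‖).prod := by
  have hr0 : 0 < r := by linarith
  intro s
  induction s using Multiset.induction_on with
  | empty => simp
  | cons a s ih =>
    intro h
    obtain ⟨i1, i2, i3⟩ := ih fun z hz => h z (Multiset.mem_cons_of_mem hz)
    have ha : ‖a‖ ≤ R := h a (Multiset.mem_cons_self a s)
    have hrc : (r : ℂ) ≠ 0 := by exact_mod_cast hr0.ne'
    have nu : ‖a / (r : ℂ)‖ = ‖a‖ / r := by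
      rw [norm_div, Complex.norm_real, Real.norm_eq_abs, abs_of_pos hr0]
    have hu1 : ‖a / (r : ℂ)‖ ≤ R / r := by
      rw [nu]
      exact div_le_div_of_nonneg_right ha hr0.le
    have hu : ‖a / (r : ℂ)‖ ≤ 1 / 2 := by
      refine hu1.trans ?_
      rw [div_le_iff₀ hr0]
      linarith
    have e1 : ‖((-r : ℝ) : ℂ) - a‖ = r * ‖1 + a / (r : ℂ)‖ := by
      rw [show ((-r : ℝ) : ℂ) - a = -((r : ℂ) * (1 + a / (r : ℂ))) by
        push_cast
        field_simp
        ring, norm_neg, norm_mul, Complex.norm_real, Real.norm_eq_abs, abs_of_pos hr0]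
    have e2 : ‖(r : ℂ) - a‖ = r * ‖1 - a / (r : ℂ)‖ := by
      rw [show (r : ℂ) - a = (r : ℂ) * (1 - a / (r : ℂ)) by field_simp, norm_mul,
        Complex.norm_real, Real.norm_eq_abs, abs_of_pos hr0]
    have p1 : 0 < ‖1 + a / (r : ℂ)‖ := by
      have := norm_sub_norm_le (1 : ℂ) (-(a / (r : ℂ)))
      rw [norm_one, norm_neg, sub_neg_eq_add] at this
      linarith
    have p2 : 0 < ‖1 - a / (r : ℂ)‖ := by
      have := norm_sub_norm_le (1 : ℂ) (a / (r : ℂ))
      rw [norm_one] at this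
      linarith
    have q1 : 0 < ‖((-r : ℝ) : ℂ) - a‖ := by
      rw [e1]
      positivity
    have q2 : 0 < ‖(r : ℂ) - a‖ := by
      rw [e2]
      positivity
    rw [Multiset.map_cons, Multiset.prod_cons, Multiset.map_cons, Multiset.prod_cons,
      Multiset.sum_cons, Multiset.card_cons]
    refine ⟨mul_pos q1 i1, mul_pos q2 i2, ?_⟩
    rw [Real.log_mul q1.ne' i1.ne', Real.log_mul q2.ne' i2.ne', e1, e2,
      Real.log_mul hr0.ne' p1.ne', Real.log_mul hr0.ne' p2.ne', Complex.add_re]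
    have f := factor_log hu
    have f1 : ‖a / (r : ℂ)‖ ^ 3 ≤ (R / r) ^ 3 := pow_le_pow_left₀ (norm_nonneg _) hu1 3
    have f2 : (a / (r : ℂ)).re = a.re / r := Complex.div_ofReal_re a r
    rw [f2] at f
    have f3 : 2 * (a.re + s.sum.re) / r = 2 * (a.re / r) + 2 * s.sum.re / r := by ring
    rw [f3, Nat.cast_add, Nat.cast_one]
    linarith

theorem map_splits (P : ℝ[X]) : (P.map Complex.ofRealHom).Splits := IsAlgClosed.splits _

/-- **The second coefficient.** -/
theorem top_sum {P : ℝ[X]} {R r A : ℝ} (hR : 0 < R) (hr : 2 * R ≤ r) (hl : 0 < P.leadingCoeff)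
    (hdeg : 1 ≤ P.natDegree) (hroots : ∀ z ∈ (P.map Complex.ofRealHom).roots, ‖z‖ ≤ R)
    (hA : |P.eval (-r)| ≤ |P.eval r| * Real.exp (-A)) :
    A * r / 2 - 2 / 3 * R ^ 3 * P.natDegree / r ^ 2 ≤
      P.coeff (P.natDegree - 1) / P.leadingCoeff := by
  have hr0 : 0 < r := by linarith
  set Q := P.map Complex.ofRealHom with hQ
  have hP0 : P ≠ 0 := by
    intro h
    rw [h] at hl
    simp at hl
  have hcard : Multiset.card Q.roots = P.natDegree := by
    rw [hQ, IsAlgClosed.card_roots_eq_natDegree, Polynomial.natDegree_map]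
  have hlead : Q.leadingCoeff = (P.leadingCoeff : ℂ) := by
    rw [hQ, Polynomial.leadingCoeff_map]
    rfl
  have hev : ∀ x : ℝ, Q.eval (x : ℂ) = ((P.eval x : ℝ) : ℂ) := by
    intro x
    rw [hQ, Polynomial.eval_map]
    exact Polynomial.eval₂_at_apply Complex.ofRealHom x
  have hprod : ∀ x : ℝ, |P.eval x| = P.leadingCoeff * (Q.roots.map fun z => ‖(x : ℂ) - z‖).prod := by
    intro x
    have h1 : Q.eval (x : ℂ) = Q.leadingCoeff * (Q.roots.map fun z => (x : ℂ) - z).prod :=
      (map_splits P).eval_eq_prod_roots (x : ℂ)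
    have h2 : ‖Q.eval (x : ℂ)‖ = |P.eval x| := by
      rw [hev, Complex.norm_real, Real.norm_eq_abs]
    rw [← h2, h1, norm_mul, hlead, Complex.norm_real, Real.norm_eq_abs, abs_of_pos hl]
    congr 1
    have h3 : ∀ s : Multiset ℂ, ‖(s.map fun z => (x : ℂ) - z).prod‖ =
        (s.map fun z => ‖(x : ℂ) - z‖).prod := by
      intro s
      induction s using Multiset.induction_on with
      | empty => simp
      | cons a s ih => rw [Multiset.map_cons, Multiset.prod_cons, norm_mul, ih, Multiset.map_cons,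
          Multiset.prod_cons]
    exact h3 _
  obtain ⟨g1, g2, g3⟩ := sum_log hR hr Q.roots hroots
  rw [hprod, hprod, mul_assoc] at hA
  have hA2 := Real.log_le_log g1 (le_of_mul_le_mul_left hA hl)
  rw [Real.log_mul g2.ne' (Real.exp_pos _).ne', Real.log_exp] at hA2
  rw [hcard] at g3
  have hsum : P.coeff (P.natDegree - 1) / P.leadingCoeff = -Q.roots.sum.re := by
    have h1 := (map_splits P).nextCoeff_eq_neg_sum_roots_mul_leadingCoeff
    rw [← hQ, hlead] at h1
    have h2 : Q.nextCoeff = (P.coeff (P.natDegree - 1) : ℂ) := by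
      rw [Polynomial.nextCoeff_of_natDegree_pos (by rw [hQ, Polynomial.natDegree_map]; omega), hQ,
        Polynomial.natDegree_map, Polynomial.coeff_map]
      rfl
    rw [h2] at h1
    have h3 := congrArg Complex.re h1
    rw [neg_mul, Complex.neg_re, Complex.re_ofReal_mul, Complex.ofReal_re] at h3
    rw [h3]
    field_simp
  rw [hsum]
  have h4 : 2 * Q.roots.sum.re / r - 4 / 3 * (R / r) ^ 3 * P.natDegree ≤ -A := by linarith
  have h5 := mul_le_mul_of_nonneg_left h4 (by positivity : 0 ≤ r / 2)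
  have h6 : r / 2 * (2 * Q.roots.sum.re / r - 4 / 3 * (R / r) ^ 3 * P.natDegree) =
      Q.roots.sum.re - 2 / 3 * R ^ 3 * P.natDegree / r ^ 2 := by
    field_simp
    ring
  rw [h6] at h5
  linarith

end Pool.Agent.Helper49.GD
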