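import Pool.Agent.Helper49.EV.Top

/-!
# Log-concavity of the top coefficients with explicit constants
-/

set_option autoImplicit false

namespace Pool.Agent.Helper49.GD

open Polynomial Pool.Agent.Helper49.ZB Pool.Agent.Helper49.EV

/-- **Top coefficients**, all constants explicit: if all roots have modulus at most `ρ` and
`c * deg P * lead P ≤ coeff (deg P - 1)`, then log-concavity holds for `deg P - k ≤ κ c deg P / 2` for
every `κ ≤ c / (16 ρ ^ 2)`, `κ ≤ 1 / (2 ρ)`. -/
theorem top_explicit {ρ c κ : ℝ} (hρ : 0 < ρ) (hc : 0 < c) (hκ0 : 0 < κ) (hκ1 : 16 * ρ ^ 2 * κ ≤ c)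
    (hκ2 : 2 * ρ * κ ≤ 1) {P : ℝ[X]} (hl : 0 < P.leadingCoeff)
    (hroots : ∀ z ∈ (P.map Complex.ofRealHom).roots, ‖z‖ ≤ ρ)
    (hlam : c * P.natDegree * P.leadingCoeff ≤ P.coeff (P.natDegree - 1)) {k : ℕ} (hk1 : 1 ≤ k)
    (hk : (P.natDegree : ℝ) ≤ k + κ * c / 2 * P.natDegree) :
    P.coeff (k - 1) * P.coeff (k + 1) ≤ P.coeff k ^ 2 := by
  set g := P.natDegree with hg
  set l := P.leadingCoeff with hl'
  have hlc : P.coeff g = l := rfl
  -- trivial cases
  rcases Nat.lt_or_ge k g with hkg | hkg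
  swap
  · rw [Polynomial.coeff_eq_zero_of_natDegree_lt (show P.natDegree < k + 1 by omega), mul_zero]
    positivity
  have hg1 : 1 ≤ g := by omega
  have hgR : (0 : ℝ) < g := by exact_mod_cast hg1
  set e : ℕ → ℝ := fun j => if j ≤ g then P.coeff (g - j) / l else 0 with he
  have he0 : e 0 = 1 := by
    simp only [he, Nat.zero_le, if_true, Nat.sub_zero, hlc]
    exact div_self hl.ne'
  have heg : ∀ j, g < j → e j = 0 := by
    intro j hj
    simp only [he]
    rw [if_neg (by omega)]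
  have hsum : ∀ t : ℂ, (l : ℂ) * ∑ j ∈ Finset.range (g + 1), (e j : ℂ) * t ^ (g - j) =
      (P.map Complex.ofRealHom).eval t := by
    intro t
    rw [Polynomial.eval_eq_sum_range' (n := g + 1)
      (Nat.lt_succ_of_le Polynomial.natDegree_map_le), ← Finset.sum_range_reflect, Finset.mul_sum]
    refine Finset.sum_congr rfl fun j hj => ?_
    rw [Finset.mem_range] at hj
    rw [Polynomial.coeff_map, show g + 1 - 1 - j = g - j by omega]
    simp only [he]
    rw [if_pos (by omega : g - j ≤ g), show g - (g - j) = j by omega]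
    have : (l : ℂ) ≠ 0 := by exact_mod_cast hl.ne'
    change (l : ℂ) * (((P.coeff j / l : ℝ) : ℂ) * t ^ j) = ((P.coeff j : ℝ) : ℂ) * t ^ j
    push_cast
    field_simp
  have hQ : P.map Complex.ofRealHom ≠ 0 := by
    intro h0
    have h1 : (P.map Complex.ofRealHom).coeff g = 0 := by rw [h0]; simp
    rw [Polynomial.coeff_map, hlc] at h1
    have : (l : ℂ) = 0 := h1
    exact hl.ne' (by exact_mod_cast this)
  obtain ⟨p, hp, hN⟩ := newton_seq_gen g e he0 heg ρ (by
    intro t ht
    apply hroots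
    rw [Polynomial.mem_roots hQ, Polynomial.IsRoot, ← hsum, ht, mul_zero])
  have he1 : c * g ≤ e 1 := by
    simp only [he]
    rw [if_pos hg1, le_div_iff₀ hl]
    exact hlam
  set m := g - k with hm
  have hmk : m + k = g := by omega
  have hmR : (m : ℝ) + k = g := by exact_mod_cast hmk
  have hm2 : 2 * (m : ℝ) ≤ κ * e 1 := by
    have h1 : (m : ℝ) ≤ κ * c / 2 * g := by linarith
    have h2 : κ * (c * g) ≤ κ * e 1 := mul_le_mul_of_nonneg_left he1 hκ0.le
    linarith
  obtain ⟨h1, h2⟩ := incr_gen he0 rfl hgR hc hρ he1 hκ0 hκ1 hκ2 hp hN m hm2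
  have h3 := (h2 m le_rfl).1
  have hm1 : 1 ≤ m := by omega
  obtain ⟨m', hm'⟩ : ∃ m', m = m' + 1 := ⟨m - 1, by omega⟩
  rw [hm'] at h1 h3
  have h4 : e m' / e (m' + 1) ≤ e (m' + 1) / e (m' + 1 + 1) := by
    change 0 ≤ e (m' + 1) / e (m' + 1 + 1) - e m' / e (m' + 1) at h3
    linarith
  rw [div_le_div_iff₀ (h1 _ (by omega)) (h1 _ (by omega))] at h4
  have c0 : P.coeff (k + 1) = l * e m' := by
    simp only [he]
    rw [if_pos (by omega), show g - m' = k + 1 by omega]
    field_simp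
  have c1 : P.coeff k = l * e (m' + 1) := by
    simp only [he]
    rw [if_pos (by omega), show g - (m' + 1) = k by omega]
    field_simp
  have c2 : P.coeff (k - 1) = l * e (m' + 1 + 1) := by
    simp only [he]
    rw [if_pos (by omega), show g - (m' + 1 + 1) = k - 1 by omega]
    field_simp
  rw [c0, c1, c2]
  calc l * e (m' + 1 + 1) * (l * e m') = l ^ 2 * (e m' * e (m' + 1 + 1)) := by ring
    _ ≤ l ^ 2 * (e (m' + 1) * e (m' + 1)) := mul_le_mul_of_nonneg_left h4 (by positivity)
    _ = (l * e (m' + 1)) ^ 2 := by ring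

end Pool.Agent.Helper49.GD
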